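import Mathlib

/-!
# H25/FP/Rf: finite quotients of the free group on a finite set

Port of H73/D3/Rf (rank two) to any finite set of generators, with the same proof: permutations of the finite set of the
elements of norm at most `n` which extend the partial left translations.
-/

set_option autoImplicit false

namespace Pool.Agent.H25.FP

private def RfV (C : Type) [DecidableEq C] (n : ℕ) : Type := {x : FreeGroup C // x.norm ≤ n}

private def RfV.v {C : Type} [DecidableEq C] {n : ℕ} (x : RfV C n) : FreeGroup C := Subtype.val x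

private theorem RfV.ext' {C : Type} [DecidableEq C] {n : ℕ} {x y : RfV C n} (h : x.v = y.v) : x = y := Subtype.ext h

private theorem rfV_finite (C : Type) [DecidableEq C] [Finite C] (n : ℕ) : Finite (RfV C n) := by
  have h1 : {l : List (C × Bool) | l.length ≤ n}.Finite := List.finite_length_le _ n
  have h2 := h1.to_subtype
  exact Finite.of_injective
    (fun x : RfV C n => (⟨x.v.toWord, x.2⟩ : {l : List (C × Bool) | l.length ≤ n}))
    (fun x y h => by
      apply RfV.ext'
      apply FreeGroup.toWord_injective
      exact congrArg Subtype.val h)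

private theorem rf_step {C : Type} [DecidableEq C] [Finite C] (n : ℕ) (i : C) : ∃ σ : Equiv.Perm (RfV C n),
    ∀ x : RfV C n, (FreeGroup.of i * x.v).norm ≤ n → (σ x).v = FreeGroup.of i * x.v := by
  have hfin := rfV_finite C n
  obtain ⟨σ, hσ⟩ := Equiv.Perm.exists_extending_pair
    (α := {x : RfV C n // (FreeGroup.of i * x.v).norm ≤ n}) (β := RfV C n)
    (fun x => x.1) (fun x => ⟨FreeGroup.of i * x.1.v, x.2⟩)
    Subtype.val_injective
    (fun x y h => by
      apply Subtype.ext
      apply RfV.ext'
      have h1 : FreeGroup.of i * x.1.v = FreeGroup.of i * y.1.v := congrArg RfV.v h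
      exact mul_left_cancel h1)
  exact ⟨σ, fun x h => congrArg RfV.v (hσ ⟨x, h⟩)⟩

theorem rf_free {C : Type} [DecidableEq C] [Finite C] (T : Set (FreeGroup C)) (hT : T.Finite) (h1 : ∀ t ∈ T, t ≠ 1) :
    ∃ (P : Type) (_ : Group P) (_ : Finite P) (q : FreeGroup C →* P),
      Function.Surjective q ∧ ∀ t ∈ T, q t ≠ 1 := by
  obtain ⟨n, hn⟩ := (hT.image FreeGroup.norm).bddAbove
  have hn' : ∀ t ∈ T, t.norm ≤ n := fun t ht => hn ⟨t, ht, rfl⟩
  have hfin := rfV_finite C n
  choose σ hσ using rf_step (C := C) n
  let φ : FreeGroup C →* Equiv.Perm (RfV C n) := FreeGroup.lift σ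
  have hφ : ∀ i, φ (FreeGroup.of i) = σ i := fun i => FreeGroup.lift_apply_of
  obtain ⟨o, ho⟩ : ∃ o : RfV C n, o.v = 1 := by
    refine ⟨⟨1, ?_⟩, rfl⟩
    rw [FreeGroup.norm_one]
    exact Nat.zero_le n
  have key : ∀ L : List (C × Bool), L.length ≤ n → (φ (FreeGroup.mk L) o).v = FreeGroup.mk L := by
    intro L
    induction L with
    | nil =>
      intro _
      have h2 : FreeGroup.mk ([] : List (C × Bool)) = 1 := rfl
      rw [h2, map_one]
      exact ho
    | cons a L ih =>
      intro hL
      have hL' : L.length ≤ n := (Nat.le_succ _).trans hL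
      obtain ⟨i, b⟩ := a
      have h3 := ih hL'
      cases b with
      | true =>
        have h4 : FreeGroup.mk ((i, true) :: L) = FreeGroup.of i * FreeGroup.mk L := by
          rw [FreeGroup.of, FreeGroup.mul_mk]
          rfl
        have h5 : (FreeGroup.of i * FreeGroup.mk L).norm ≤ n := by
          rw [← h4]
          exact FreeGroup.norm_mk_le.trans hL
        rw [h4, map_mul, Equiv.Perm.mul_apply, hφ]
        rw [← h3] at h5
        rw [hσ i _ h5, h3]
      | false =>
        have h4 : FreeGroup.of i * FreeGroup.mk ((i, false) :: L) = FreeGroup.mk L := by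
          have h7 : FreeGroup.mk ((i, false) :: L) = (FreeGroup.of i)⁻¹ * FreeGroup.mk L := by
            rw [FreeGroup.of, FreeGroup.inv_mk, FreeGroup.mul_mk]
            rfl
          rw [h7, mul_inv_cancel_left]
        have h8 : (FreeGroup.mk ((i, false) :: L)).norm ≤ n := FreeGroup.norm_mk_le.trans hL
        obtain ⟨y, hy⟩ : ∃ y : RfV C n, y.v = FreeGroup.mk ((i, false) :: L) := ⟨⟨_, h8⟩, rfl⟩
        have h9 : (FreeGroup.of i * y.v).norm ≤ n := by
          rw [hy, h4]
          exact FreeGroup.norm_mk_le.trans hL'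
        have h10 : σ i y = φ (FreeGroup.mk L) o := by
          apply RfV.ext'
          rw [hσ i y h9, hy, h4, h3]
        have h11 : σ i (φ (FreeGroup.mk ((i, false) :: L)) o) = φ (FreeGroup.mk L) o := by
          rw [← h4, map_mul, Equiv.Perm.mul_apply, hφ]
        rw [← h10] at h11
        rw [(σ i).injective h11]
        exact hy
  refine ⟨φ.range, inferInstance, inferInstance, φ.rangeRestrict, φ.rangeRestrict_surjective, ?_⟩
  intro t ht h2
  have h3 : φ t = 1 := by
    have := congrArg Subtype.val h2
    exact this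
  have h4 := key t.toWord (hn' t ht)
  rw [FreeGroup.mk_toWord, h3, Equiv.Perm.one_apply, ho] at h4
  exact h1 t ht h4.symm

end Pool.Agent.H25.FP
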