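import Pool.Agent.H25.WP.Defs
import Pool.Agent.H25.FP.Rf

/-!
# H25/FP/Free: colourings of free products

`A`, `B` have colourings `κA`, `κB` with tiles `TA`, `TB`. The group `A ∗ B` acts on its tree; the quotient by the kernel of the
map onto `A × B` is the complete bipartite graph with the edge set `A × B`, an element is a path class from the edge `1` to
the edge `toProd g`. The colourings map this graph to the finite complete bipartite graph with the edge set `C = CA × CB`.
`uu X g k` is the holonomy of the path of `g`, moved to the edge `k`, under the labelling `X` of the edges. The colour of `g` is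
the colour of the edge `toProd g` together with the holonomies for all labellings which factor through `C`.
`Good g`: the path of `g` runs inside `TA × TB`. `transfer`: for good `g` a translation acts as a permutation of the
colours. `reach`: every colour is the colour of a good element.
-/

set_option autoImplicit false

namespace Pool.Agent.H25.FP

open Pool.Agent.H25.WP

universe u v w

/-- right translation of the argument -/
def rt (Q : Type u) (R : Type v) [Group Q] [Group R] : Q →* MulAut (Q → R) where
  toFun k :=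
    { toFun := fun f x => f (x * k)
      invFun := fun f x => f (x * k⁻¹)
      left_inv := fun f => by funext x; simp
      right_inv := fun f => by funext x; simp
      map_mul' := fun f g => rfl }
  map_one' := by
    ext f x
    simp
  map_mul' k l := by
    ext f x
    simp [mul_assoc]

variable {A : Type u} {B : Type v} [Group A] [Group B]

/-- holonomy as a homomorphism to a wreath product -/
def Ps {R : Type w} [Group R] (X : A × B → R) :
    Monoid.Coprod A B →* (A × B → R) ⋊[rt (A × B) R] (A × B) :=
  Monoid.Coprod.lift (SemidirectProduct.inr.comp (MonoidHom.inl A B))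
    ((MulAut.conj (⟨X, 1⟩ : (A × B → R) ⋊[rt (A × B) R] (A × B))).toMonoidHom.comp
      (SemidirectProduct.inr.comp (MonoidHom.inr A B)))

/-- holonomy -/
def uu {R : Type w} [Group R] (X : A × B → R) (g : Monoid.Coprod A B) (k : A × B) : R := (Ps X g).left k

/-- the projection -/
def qq (g : Monoid.Coprod A B) : A × B := Monoid.Coprod.toProd g

theorem qq_mul (g h : Monoid.Coprod A B) : qq (g * h) = qq g * qq h := map_mul _ _ _

theorem qq_inl (a : A) : qq (Monoid.Coprod.inl a : Monoid.Coprod A B) = (a, 1) := by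
  simp [qq]

theorem qq_inr (b : B) : qq (Monoid.Coprod.inr b : Monoid.Coprod A B) = (1, b) := by
  simp [qq]

theorem qq_one : qq (1 : Monoid.Coprod A B) = 1 := map_one _

theorem Ps_right {R : Type w} [Group R] (X : A × B → R) (g : Monoid.Coprod A B) : (Ps X g).right = qq g := by
  have h : SemidirectProduct.rightHom.comp (Ps X) = Monoid.Coprod.toProd := by
    apply Monoid.Coprod.hom_ext
    · ext a <;> simp [Ps]
    · ext b <;> simp [Ps]
  exact DFunLike.congr_fun h g

theorem uu_mul {R : Type w} [Group R] (X : A × B → R) (g h : Monoid.Coprod A B) (k : A × B) :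
    uu X (g * h) k = uu X g k * uu X h (k * qq g) := by
  unfold uu
  rw [map_mul, SemidirectProduct.mul_left, Ps_right]
  rfl

theorem uu_one {R : Type w} [Group R] (X : A × B → R) (k : A × B) : uu X 1 k = 1 := by
  unfold uu
  rw [map_one]
  rfl

theorem uu_inl {R : Type w} [Group R] (X : A × B → R) (a : A) (k : A × B) :
    uu X (Monoid.Coprod.inl a) k = 1 := by
  unfold uu Ps
  rw [Monoid.Coprod.lift_apply_inl]
  rfl

theorem uu_inr {R : Type w} [Group R] (X : A × B → R) (b : B) (k : A × B) :
    uu X (Monoid.Coprod.inr b) k = X k * (X (k * (1, b)))⁻¹ := by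
  unfold uu Ps
  rw [Monoid.Coprod.lift_apply_inr]
  change ((⟨X, 1⟩ : (A × B → R) ⋊[rt (A × B) R] (A × B)) * SemidirectProduct.inr (1, b) *
    (⟨X, 1⟩ : (A × B → R) ⋊[rt (A × B) R] (A × B))⁻¹).left k = _
  change (X k * 1) * (X ((k * ((1 : A × B) * ((1 : A), b))) * (1 : A × B)⁻¹))⁻¹ = _
  rw [mul_one, one_mul, inv_one, mul_one]

theorem uu_map {R : Type w} [Group R] {R' : Type w} [Group R'] (X : A × B → R) (φ : R →* R')
    (g : Monoid.Coprod A B) : ∀ k, uu (fun x => φ (X x)) g k = φ (uu X g k) := by
  induction g using Monoid.Coprod.induction_on with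
  | inl a => intro k; rw [uu_inl, uu_inl, map_one]
  | inr b => intro k; rw [uu_inr, uu_inr, map_mul, map_inv]
  | mul x y hx hy => intro k; rw [uu_mul, uu_mul, hx, hy, map_mul]

/-- the path of `g` runs inside `TA × TB` -/
inductive Good (TA : Set A) (TB : Set B) : Monoid.Coprod A B → Prop
  | one : Good TA TB 1
  | left (g : Monoid.Coprod A B) (a : A) (hg : Good TA TB g) (h : (qq g).1 * a ∈ TA) :
      Good TA TB (g * Monoid.Coprod.inl a)
  | right (g : Monoid.Coprod A B) (b : B) (hg : Good TA TB g) (h : (qq g).2 * b ∈ TB) :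
      Good TA TB (g * Monoid.Coprod.inr b)

theorem Good.mem {TA : Set A} {TB : Set B} (h1 : 1 ∈ TA) (h2 : 1 ∈ TB) {g : Monoid.Coprod A B}
    (hg : Good TA TB g) : (qq g).1 ∈ TA ∧ (qq g).2 ∈ TB := by
  induction hg with
  | one => rw [qq_one]; exact ⟨h1, h2⟩
  | left g a _ h ih =>
    rw [qq_mul, qq_inl]
    refine ⟨h, ?_⟩
    simpa using ih.2
  | right g b _ h ih =>
    rw [qq_mul, qq_inr]
    refine ⟨?_, h⟩
    simpa using ih.1

/-- every element is good for large `TA`, `TB` -/
theorem good_large (g : Monoid.Coprod A B) : ∀ h : Monoid.Coprod A B,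
    (∃ (FA : Finset A) (FB : Finset B), ∀ (TA : Set A) (TB : Set B), (FA : Set A) ⊆ TA →
      (FB : Set B) ⊆ TB → Good TA TB h) →
    ∃ (FA : Finset A) (FB : Finset B), ∀ (TA : Set A) (TB : Set B), (FA : Set A) ⊆ TA →
      (FB : Set B) ⊆ TB → Good TA TB (h * g) := by
  classical
  induction g using Monoid.Coprod.induction_on with
  | inl a =>
    rintro h ⟨FA, FB, hF⟩
    refine ⟨insert ((qq h).1 * a) FA, FB, fun TA TB h1 h2 => ?_⟩
    refine Good.left h a (hF TA TB (fun x hx => h1 ?_) h2) (h1 ?_)
    · rw [Finset.mem_coe] at hx ⊢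
      exact Finset.mem_insert_of_mem hx
    · rw [Finset.mem_coe]
      exact Finset.mem_insert_self _ _
  | inr b =>
    rintro h ⟨FA, FB, hF⟩
    refine ⟨FA, insert ((qq h).2 * b) FB, fun TA TB h1 h2 => ?_⟩
    refine Good.right h b (hF TA TB h1 (fun x hx => h2 ?_)) (h2 ?_)
    · rw [Finset.mem_coe] at hx ⊢
      exact Finset.mem_insert_of_mem hx
    · rw [Finset.mem_coe]
      exact Finset.mem_insert_self _ _
  | mul x y hx hy =>
    intro h hh
    rw [← mul_assoc]
    exact hy _ (hx _ hh)

theorem good_fin (F : Finset (Monoid.Coprod A B)) : ∃ (FA : Finset A) (FB : Finset B),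
    ∀ (TA : Set A) (TB : Set B), (FA : Set A) ⊆ TA → (FB : Set B) ⊆ TB → ∀ f ∈ F, Good TA TB f := by
  classical
  induction F using Finset.induction_on with
  | empty => exact ⟨∅, ∅, fun TA TB _ _ f hf => absurd hf (Finset.notMem_empty f)⟩
  | insert a F _ ih =>
    obtain ⟨FA, FB, h⟩ := ih
    obtain ⟨FA', FB', h'⟩ := good_large a 1 ⟨∅, ∅, fun TA TB _ _ => Good.one⟩
    rw [one_mul] at h'
    refine ⟨FA ∪ FA', FB ∪ FB', fun TA TB h1 h2 f hf => ?_⟩
    rw [Finset.coe_union, Set.union_subset_iff] at h1 h2
    rcases Finset.mem_insert.mp hf with h3 | h3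
    · rw [h3]
      exact h' TA TB h1.2 h2.2
    · exact h TA TB h1.1 h2.1 f h3

/-- a colouring, with the tile enumerated by the colours -/
theorem data {A : Type u} [Group A] (h : PC A) (F : Finset A) : ∃ (n : ℕ) (κ : A → Fin n) (t : Fin n → A),
    (F : Set A) ⊆ Set.range t ∧ (∀ c, κ (t c) = c) ∧ (∀ g, Function.Bijective fun c => κ (g * t c)) ∧
      ∀ g, Function.Injective fun c => κ (t c * g) := by
  classical
  obtain ⟨S, hS, κ, hκ⟩ := h (F.image fun x => x⁻¹)
  let e := Equiv.ofBijective _ (hκ 1).1
  have he : ∀ c, κ (((e.symm c : {x // x ∈ S}) : A)⁻¹) = c := by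
    intro c
    have h1 : e (e.symm c) = c := e.apply_symm_apply c
    have h2 : e (e.symm c) = κ (1 * ((e.symm c : {x // x ∈ S}) : A)⁻¹) := rfl
    rw [h2, one_mul] at h1
    exact h1
  refine ⟨S.card, κ, fun c => ((e.symm c : {x // x ∈ S}) : A)⁻¹, ?_, he, ?_, ?_⟩
  · intro f hf
    have h1 : f⁻¹ ∈ S := hS (Finset.mem_image_of_mem (fun x => x⁻¹) hf)
    refine ⟨e ⟨f⁻¹, h1⟩, ?_⟩
    simp
  · intro g
    exact (hκ g).1.comp e.symm.bijective
  · intro g
    exact (hκ g).2.1.comp e.symm.injective

end Pool.Agent.H25.FP
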