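import Pool.Agent.H25.FP.Free

/-!
# H25/FP/Pc: the free product of two groups with colourings has colourings
-/

set_option autoImplicit false

namespace Pool.Agent.H25.FP

open Pool.Agent.H25.WP

universe u v w

variable {A : Type u} {B : Type v} [Group A] [Group B]

/-- colours of the edges -/
def kq {n m : ℕ} (κA : A → Fin n) (κB : B → Fin m) (k : A × B) : Fin n × Fin m := (κA k.1, κB k.2)

/-- the labelling with all labels -/
def XX {n m : ℕ} (κA : A → Fin n) (κB : B → Fin m) (P : Type) : A × B → ((Fin n × Fin m → P) → P) :=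
  fun k lam => lam (kq κA κB k)

/-- the colour of an element -/
def col {n m : ℕ} (κA : A → Fin n) (κB : B → Fin m) (P : Type) [Group P] (g : Monoid.Coprod A B) :
    (Fin n × Fin m) × ((Fin n × Fin m → P) → P) :=
  (kq κA κB (qq g), uu (XX κA κB P) g 1)

/-- the permutation of the colours of the edges given by `k` -/
def sg {n m : ℕ} (κA : A → Fin n) (κB : B → Fin m) (tA : Fin n → A) (tB : Fin m → B) (k : A × B)
    (c : Fin n × Fin m) : Fin n × Fin m := (κA (k.1 * tA c.1), κB (k.2 * tB c.2))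

section
variable {n m : ℕ} {κA : A → Fin n} {κB : B → Fin m} {tA : Fin n → A} {tB : Fin m → B}

theorem rt_eq {n : ℕ} {A : Type u} {κ : A → Fin n} {t : Fin n → A} (h : ∀ c, κ (t c) = c) {x : A}
    (hx : x ∈ Set.range t) : t (κ x) = x := by
  obtain ⟨c, rfl⟩ := hx
  rw [h c]

theorem kq_sg (hA : ∀ c, κA (tA c) = c) (hB : ∀ c, κB (tB c) = c) (k x : A × B)
    (h1 : x.1 ∈ Set.range tA) (h2 : x.2 ∈ Set.range tB) :
    kq κA κB (k * x) = sg κA κB tA tB k (kq κA κB x) := by
  unfold kq sg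
  simp only [Prod.fst_mul, Prod.snd_mul]
  rw [rt_eq hA h1, rt_eq hB h2]

theorem XX_sg (P : Type) (hA : ∀ c, κA (tA c) = c) (hB : ∀ c, κB (tB c) = c) (k x : A × B)
    (h1 : x.1 ∈ Set.range tA) (h2 : x.2 ∈ Set.range tB) (lam : Fin n × Fin m → P) :
    XX κA κB P (k * x) lam = XX κA κB P x (lam ∘ sg κA κB tA tB k) := by
  unfold XX
  rw [kq_sg hA hB k x h1 h2]
  rfl

/-- for good elements the translation by `k` is a permutation of the colours -/
theorem transfer (P : Type) [Group P] (hA : ∀ c, κA (tA c) = c) (hB : ∀ c, κB (tB c) = c)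
    (hA1 : 1 ∈ Set.range tA) (hB1 : 1 ∈ Set.range tB) (k : A × B) {g : Monoid.Coprod A B}
    (hg : Good (Set.range tA) (Set.range tB) g) (lam : Fin n × Fin m → P) :
    uu (XX κA κB P) g k lam = uu (XX κA κB P) g 1 (lam ∘ sg κA κB tA tB k) := by
  induction hg with
  | one =>
    rw [uu_one, uu_one]
    rfl
  | left g a hg h ih =>
    rw [uu_mul, uu_mul, uu_inl, uu_inl, mul_one, mul_one]
    exact ih
  | right g b hg h ih =>
    have hm := hg.mem hA1 hB1
    have hm' : (qq g * ((1 : A), b)).1 ∈ Set.range tA ∧ (qq g * ((1 : A), b)).2 ∈ Set.range tB := by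
      refine ⟨?_, h⟩
      simpa using hm.1
    rw [uu_mul, uu_mul, uu_inr, uu_inr, one_mul, Pi.mul_apply, Pi.mul_apply, Pi.mul_apply,
      Pi.mul_apply, Pi.inv_apply, Pi.inv_apply, ih, mul_assoc k, XX_sg P hA hB k (qq g) hm.1 hm.2,
      XX_sg P hA hB k _ hm'.1 hm'.2]

theorem uu_mul' (P : Type) [Group P] (g t : Monoid.Coprod A B) :
    uu (XX κA κB P) (g * t) 1 = uu (XX κA κB P) g 1 * uu (XX κA κB P) t (qq g) := by
  rw [uu_mul, one_mul]

/-- left translations -/
theorem injL (P : Type) [Group P] (hA : ∀ c, κA (tA c) = c) (hB : ∀ c, κB (tB c) = c)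
    (hA1 : 1 ∈ Set.range tA) (hB1 : 1 ∈ Set.range tB)
    (hAL : ∀ g, Function.Bijective fun c => κA (g * tA c))
    (hBL : ∀ g, Function.Bijective fun c => κB (g * tB c)) (g : Monoid.Coprod A B)
    {t t' : Monoid.Coprod A B} (ht : Good (Set.range tA) (Set.range tB) t)
    (ht' : Good (Set.range tA) (Set.range tB) t')
    (h : col κA κB P (g * t) = col κA κB P (g * t')) : col κA κB P t = col κA κB P t' := by
  have hs : Function.Bijective (sg κA κB tA tB (qq g)) := (hAL (qq g).1).prodMap (hBL (qq g).2)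
  have h1 : kq κA κB (qq (g * t)) = kq κA κB (qq (g * t')) := congrArg Prod.fst h
  have h2 : uu (XX κA κB P) (g * t) 1 = uu (XX κA κB P) (g * t') 1 := congrArg Prod.snd h
  have hm := ht.mem hA1 hB1
  have hm' := ht'.mem hA1 hB1
  rw [qq_mul, qq_mul, kq_sg hA hB _ _ hm.1 hm.2, kq_sg hA hB _ _ hm'.1 hm'.2] at h1
  rw [uu_mul', uu_mul'] at h2
  have h3 := mul_left_cancel h2
  refine Prod.ext (hs.1 h1) ?_
  funext lam
  let σ := Equiv.ofBijective _ hs
  have h4 : (lam ∘ σ.symm) ∘ sg κA κB tA tB (qq g) = lam := by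
    funext c
    change lam (σ.symm (σ c)) = lam c
    rw [σ.symm_apply_apply]
  have h5 := transfer P hA hB hA1 hB1 (qq g) ht (lam ∘ σ.symm)
  have h6 := transfer P hA hB hA1 hB1 (qq g) ht' (lam ∘ σ.symm)
  rw [h4] at h5 h6
  change uu (XX κA κB P) t 1 lam = uu (XX κA κB P) t' 1 lam
  rw [← h5, ← h6, h3]

/-- right translations -/
theorem injR (P : Type) [Group P] (hA1 : 1 ∈ Set.range tA) (hB1 : 1 ∈ Set.range tB)
    (hAR : ∀ g, Function.Injective fun c => κA (tA c * g))
    (hBR : ∀ g, Function.Injective fun c => κB (tB c * g)) (g : Monoid.Coprod A B)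
    {t t' : Monoid.Coprod A B} (ht : Good (Set.range tA) (Set.range tB) t)
    (ht' : Good (Set.range tA) (Set.range tB) t')
    (h : col κA κB P (t * g) = col κA κB P (t' * g)) : col κA κB P t = col κA κB P t' := by
  have h1 : kq κA κB (qq (t * g)) = kq κA κB (qq (t' * g)) := congrArg Prod.fst h
  have h2 : uu (XX κA κB P) (t * g) 1 = uu (XX κA κB P) (t' * g) 1 := congrArg Prod.snd h
  have hm := ht.mem hA1 hB1
  have hm' := ht'.mem hA1 hB1
  rw [qq_mul, qq_mul] at h1
  have h3 : κA ((qq t).1 * (qq g).1) = κA ((qq t').1 * (qq g).1) := congrArg Prod.fst h1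
  have h4 : κB ((qq t).2 * (qq g).2) = κB ((qq t').2 * (qq g).2) := congrArg Prod.snd h1
  have h5 : (qq t).1 = (qq t').1 := by
    obtain ⟨c, hc⟩ := hm.1
    obtain ⟨c', hc'⟩ := hm'.1
    rw [← hc, ← hc'] at h3 ⊢
    rw [hAR _ h3]
  have h6 : (qq t).2 = (qq t').2 := by
    obtain ⟨c, hc⟩ := hm.2
    obtain ⟨c', hc'⟩ := hm'.2
    rw [← hc, ← hc'] at h4 ⊢
    rw [hBR _ h4]
  have h7 : qq t = qq t' := Prod.ext h5 h6
  rw [uu_mul', uu_mul', h7] at h2
  unfold col
  rw [h7, mul_right_cancel h2]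

/-- every colour is the colour of a good element -/
theorem reach (P : Type) [Group P] (hA : ∀ c, κA (tA c) = c) (hB : ∀ c, κB (tB c) = c)
    (g : Monoid.Coprod A B) : ∀ h : Monoid.Coprod A B,
    (∃ t, Good (Set.range tA) (Set.range tB) t ∧ col κA κB P t = col κA κB P h) →
    ∃ t, Good (Set.range tA) (Set.range tB) t ∧ col κA κB P t = col κA κB P (h * g) := by
  induction g using Monoid.Coprod.induction_on with
  | inl a =>
    rintro h ⟨t, ht, hc⟩
    have h1 : kq κA κB (qq t) = kq κA κB (qq h) := congrArg Prod.fst hc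
    have h2 : uu (XX κA κB P) t 1 = uu (XX κA κB P) h 1 := congrArg Prod.snd hc
    refine ⟨t * Monoid.Coprod.inl ((qq t).1⁻¹ * tA (κA ((qq h).1 * a))), Good.left _ _ ht ?_, ?_⟩
    · rw [mul_inv_cancel_left]
      exact ⟨_, rfl⟩
    · unfold col
      rw [uu_mul', uu_mul', uu_inl, uu_inl, mul_one, mul_one, h2, qq_mul, qq_mul, qq_inl, qq_inl]
      refine Prod.ext ?_ rfl
      refine Prod.ext ?_ ?_
      · change κA ((qq t).1 * ((qq t).1⁻¹ * tA (κA ((qq h).1 * a)))) = κA ((qq h).1 * a)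
        rw [mul_inv_cancel_left, hA]
      · change κB ((qq t).2 * 1) = κB ((qq h).2 * 1)
        rw [mul_one, mul_one]
        exact congrArg Prod.snd h1
  | inr b =>
    rintro h ⟨t, ht, hc⟩
    have h1 : kq κA κB (qq t) = kq κA κB (qq h) := congrArg Prod.fst hc
    have h2 : uu (XX κA κB P) t 1 = uu (XX κA κB P) h 1 := congrArg Prod.snd hc
    have h3 : kq κA κB (qq t * ((1 : A), (qq t).2⁻¹ * tB (κB ((qq h).2 * b)))) =
        kq κA κB (qq h * ((1 : A), b)) := by
      refine Prod.ext ?_ ?_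
      · change κA ((qq t).1 * 1) = κA ((qq h).1 * 1)
        rw [mul_one, mul_one]
        exact congrArg Prod.fst h1
      · change κB ((qq t).2 * ((qq t).2⁻¹ * tB (κB ((qq h).2 * b)))) = κB ((qq h).2 * b)
        rw [mul_inv_cancel_left, hB]
    refine ⟨t * Monoid.Coprod.inr ((qq t).2⁻¹ * tB (κB ((qq h).2 * b))), Good.right _ _ ht ?_, ?_⟩
    · rw [mul_inv_cancel_left]
      exact ⟨_, rfl⟩
    · unfold col
      rw [uu_mul', uu_mul', uu_inr, uu_inr, h2, qq_mul, qq_mul, qq_inr, qq_inr]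
      refine Prod.ext h3 ?_
      have h4 : XX κA κB P (qq t) = XX κA κB P (qq h) := by
        funext lam
        unfold XX
        rw [h1]
      have h5 : XX κA κB P (qq t * ((1 : A), (qq t).2⁻¹ * tB (κB ((qq h).2 * b)))) =
          XX κA κB P (qq h * ((1 : A), b)) := by
        funext lam
        unfold XX
        rw [h3]
      change uu (XX κA κB P) h 1 * (XX κA κB P (qq t) * (XX κA κB P _)⁻¹) =
        uu (XX κA κB P) h 1 * (XX κA κB P (qq h) * (XX κA κB P _)⁻¹)
      rw [h4, h5]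
  | mul x y hx hy =>
    intro h hh
    rw [← mul_assoc]
    exact hy _ (hx _ hh)

/-- a good element is determined by its projection and its path word -/
theorem decode (hA : ∀ c, κA (tA c) = c) (hB : ∀ c, κB (tB c) = c)
    (hA1 : 1 ∈ Set.range tA) (hB1 : 1 ∈ Set.range tB) {g : Monoid.Coprod A B}
    (hg : Good (Set.range tA) (Set.range tB) g) :
    FreeGroup.lift (fun c : Fin n × Fin m => (Monoid.Coprod.inl (tA c.1) * (Monoid.Coprod.inr (tB c.2))⁻¹ :
      Monoid.Coprod A B)) (uu (fun k => FreeGroup.of (kq κA κB k)) g 1) *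
        Monoid.Coprod.inl (qq g).1 = g := by
  induction hg with
  | one =>
    rw [uu_one, qq_one, map_one, one_mul]
    exact map_one _
  | left g a hg h ih =>
    rw [uu_mul, uu_inl, mul_one, qq_mul, qq_inl, Prod.fst_mul, map_mul, ← mul_assoc, ih]
  | right g b hg h ih =>
    have hm := hg.mem hA1 hB1
    have h1 : (1 * qq g * ((1 : A), b)).1 ∈ Set.range tA := by simpa using hm.1
    have h2 : (1 * qq g * ((1 : A), b)).2 ∈ Set.range tB := by
      rw [one_mul]
      exact h
    rw [uu_mul, uu_inr, qq_mul, qq_inr, Prod.fst_mul, map_mul, map_mul, map_inv, FreeGroup.lift_apply_of,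
      FreeGroup.lift_apply_of]
    have e1 : tA (kq κA κB (1 * qq g)).1 = (qq g).1 := by
      rw [one_mul]
      exact rt_eq hA hm.1
    have e2 : tB (kq κA κB (1 * qq g)).2 = (qq g).2 := by
      rw [one_mul]
      exact rt_eq hB hm.2
    have e3 : tA (kq κA κB (1 * qq g * ((1 : A), b))).1 = (qq g).1 := by
      have := rt_eq hA h1
      have e : (1 * qq g * ((1 : A), b)).1 = (qq g).1 := by simp
      rw [e] at this
      change tA (κA (1 * qq g * ((1 : A), b)).1) = (qq g).1
      rw [e]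
      exact this
    have e4 : tB (kq κA κB (1 * qq g * ((1 : A), b))).2 = (qq g).2 * b := by
      have := rt_eq hB h2
      have e : (1 * qq g * ((1 : A), b)).2 = (qq g).2 * b := by simp
      rw [e] at this
      change tB (κB (1 * qq g * ((1 : A), b)).2) = (qq g).2 * b
      rw [e]
      exact this
    rw [e1, e2, e3, e4]
    have h3 : (Monoid.Coprod.inr ((qq g).2 * b) : Monoid.Coprod A B) =
        Monoid.Coprod.inr (qq g).2 * Monoid.Coprod.inr b := map_mul _ _ _
    have h4 : (Monoid.Coprod.inl ((qq g).1 * 1) : Monoid.Coprod A B) = Monoid.Coprod.inl (qq g).1 := by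
      rw [mul_one]
    rw [h3, h4]
    conv_rhs => rw [← ih]
    group

end

/-- the free product of two groups with colourings has colourings -/
theorem coprod_pc {A : Type u} {B : Type v} [Group A] [Group B] (hA : PC A) (hB : PC B) :
    PC (Monoid.Coprod A B) := by
  classical
  refine pc_mk (fun F => ?_)
  obtain ⟨FA, FB, hF⟩ := good_fin (F.image fun x => x⁻¹)
  obtain ⟨n, κA, tA, hA0, hA1, hA2, hA3⟩ := data hA (insert 1 FA)
  obtain ⟨m, κB, tB, hB0, hB1, hB2, hB3⟩ := data hB (insert 1 FB)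
  have hAo : (1 : A) ∈ Set.range tA := hA0 (by simp)
  have hBo : (1 : B) ∈ Set.range tB := hB0 (by simp)
  have hG : ∀ f ∈ F.image (fun x => x⁻¹), Good (Set.range tA) (Set.range tB) f := by
    refine hF _ _ (fun x hx => hA0 ?_) (fun x hx => hB0 ?_)
    · rw [Finset.mem_coe] at hx ⊢
      exact Finset.mem_insert_of_mem hx
    · rw [Finset.mem_coe] at hx ⊢
      exact Finset.mem_insert_of_mem hx
  let XF : A × B → FreeGroup (Fin n × Fin m) := fun k => FreeGroup.of (kq κA κB k)
  obtain ⟨P, hP1, hP2, φ, -, hφ⟩ := rf_free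
    {t : FreeGroup (Fin n × Fin m) | t ≠ 1 ∧ ∃ f ∈ F.image (fun x => x⁻¹), ∃ f' ∈ F.image (fun x => x⁻¹),
      t = (uu XF f 1)⁻¹ * uu XF f' 1} (by
        refine Set.Finite.subset (((F.image (fun x => x⁻¹)) ×ˢ (F.image (fun x => x⁻¹))).image
          (fun p : Monoid.Coprod A B × Monoid.Coprod A B => (uu XF p.1 1)⁻¹ * uu XF p.2 1)).finite_toSet ?_
        rintro t ⟨-, f, hf, f', hf', rfl⟩
        rw [Finset.mem_coe]
        exact Finset.mem_image.mpr ⟨(f, f'), Finset.mem_product.mpr ⟨hf, hf'⟩, rfl⟩) (fun t ht => ht.1)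
  have inj : ∀ f ∈ F.image (fun x => x⁻¹), ∀ f' ∈ F.image (fun x => x⁻¹),
      col κA κB P f = col κA κB P f' → f = f' := by
    intro f hf f' hf' h
    have h1 : kq κA κB (qq f) = kq κA κB (qq f') := congrArg Prod.fst h
    have h2 : uu (XX κA κB P) f 1 = uu (XX κA κB P) f' 1 := congrArg Prod.snd h
    have hm := (hG f hf).mem hAo hBo
    have hm' := (hG f' hf').mem hAo hBo
    have h3 : (qq f).1 = (qq f').1 := by
      rw [← rt_eq hA1 hm.1, ← rt_eq hA1 hm'.1]
      exact congrArg tA (congrArg Prod.fst h1)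
    have ev : ∀ g : Monoid.Coprod A B, uu (XX κA κB P) g 1 (fun c => φ (FreeGroup.of c)) = φ (uu XF g 1) := by
      intro g
      have h4 := uu_map (XX κA κB P) (Pi.evalMonoidHom (fun _ => P) (fun c => φ (FreeGroup.of c))) g 1
      have h5 := uu_map XF φ g 1
      have h6 : (fun x => (Pi.evalMonoidHom (fun _ => P) (fun c => φ (FreeGroup.of c)))
          (XX κA κB P x)) = fun x => φ (XF x) := rfl
      rw [h6] at h4
      rw [← h5, h4]
      rfl
    have h4 : φ (uu XF f 1) = φ (uu XF f' 1) := by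
      rw [← ev f, ← ev f', h2]
    have h5 : uu XF f 1 = uu XF f' 1 := by
      by_contra hne
      refine hφ ((uu XF f 1)⁻¹ * uu XF f' 1) ⟨?_, f, hf, f', hf', rfl⟩ ?_
      · intro h6
        exact hne (inv_mul_eq_one.mp h6)
      · rw [map_mul, map_inv, h4, inv_mul_cancel]
    rw [← decode hA1 hB1 hAo hBo (hG f hf), ← decode hA1 hB1 hAo hBo (hG f' hf')]
    change FreeGroup.lift _ (uu XF f 1) * Monoid.Coprod.inl (qq f).1 =
      FreeGroup.lift _ (uu XF f' 1) * Monoid.Coprod.inl (qq f').1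
    rw [h5, h3]
  have hch : ∀ o : Set.range (col κA κB P), ∃ t, Good (Set.range tA) (Set.range tB) t ∧
      col κA κB P t = o ∧ ∀ f ∈ F.image (fun x => x⁻¹), col κA κB P f = o → t = f := by
    rintro ⟨_, g, rfl⟩
    by_cases hc : ∃ f ∈ F.image (fun x => x⁻¹), col κA κB P f = col κA κB P g
    · obtain ⟨f, hf, hfc⟩ := hc
      exact ⟨f, hG f hf, hfc, fun f' hf' h' => inj f hf f' hf' (hfc.trans h'.symm)⟩
    · obtain ⟨t, ht, htc⟩ := reach P hA1 hB1 g 1 ⟨1, Good.one, rfl⟩
      rw [one_mul] at htc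
      exact ⟨t, ht, htc, fun f' hf' h' => absurd ⟨f', hf', h'⟩ hc⟩
  choose t ht1 ht2 ht3 using hch
  have hfinP : Finite P := hP2
  have hfin : Finite (Set.range (col κA κB P)) := inferInstance
  refine ⟨Set.range (col κA κB P), hfin, fun o => (t o)⁻¹, Set.range (col κA κB P),
    fun g => ⟨col κA κB P g, g, rfl⟩, ?_, ?_⟩
  · intro f hf
    have h1 : f⁻¹ ∈ F.image (fun x => x⁻¹) := Finset.mem_image_of_mem _ hf
    refine ⟨⟨col κA κB P f⁻¹, f⁻¹, rfl⟩, ?_⟩
    change (t _)⁻¹ = f
    rw [ht3 ⟨col κA κB P f⁻¹, f⁻¹, rfl⟩ f⁻¹ h1 rfl, inv_inv]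
  · intro g
    constructor
    · refine Finite.injective_iff_bijective.mp ?_
      intro o o' h
      have h1 : col κA κB P (g * (t o)⁻¹⁻¹) = col κA κB P (g * (t o')⁻¹⁻¹) := congrArg Subtype.val h
      rw [inv_inv, inv_inv] at h1
      have h2 := injL P hA1 hB1 hAo hBo hA2 hB2 g (ht1 o) (ht1 o') h1
      rw [ht2, ht2] at h2
      exact Subtype.ext h2
    · refine Finite.injective_iff_bijective.mp ?_
      intro o o' h
      have h1 : col κA κB P ((t o)⁻¹⁻¹ * g) = col κA κB P ((t o')⁻¹⁻¹ * g) := congrArg Subtype.val h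
      rw [inv_inv, inv_inv] at h1
      have h2 := injR P hAo hBo hA3 hB3 g (ht1 o) (ht1 o') h1
      rw [ht2, ht2] at h2
      exact Subtype.ext h2

end Pool.Agent.H25.FP
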